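import Pool.Agent.H30.Eul

set_option autoImplicit false
open Classical
open Pool.Agent.H30.EulDefs

namespace Pool.Agent.Results.MP_f3603a_co.Identity

theorem result : ∀ (V : Type) [Fintype V] [Nonempty V] (G : SimpleGraph V),
    (∀ v, Even (G.degree v)) →
    ∀ D : V → V → Prop, IsOrientation G D →
    ∀ D' : (v : V) → {u // u ≠ v} → {u // u ≠ v} → Prop,
      (∀ v, IsOrientation (G.comap (Subtype.val : {u // u ≠ v} → V)) (D' v)) →
      |eulerAt D (-1)| = ∑ v : V, |eulerAt (D' v) (-1)| :=
  fun _ _ _ _ he _ h D' h' => Pool.Agent.H30.Eul.main he h D' h'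

end Pool.Agent.Results.MP_f3603a_co.Identity
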